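import Mathlib

/-!
# Stationary phase for `∫ sin (Z (cosh s - 1))`, lower bound (block H of project 7E)
-/

set_option autoImplicit false

open MeasureTheory Set

namespace Pool.Agent.Helper21.E7

lemma ps_lower {s : ℝ} (hs : 0 ≤ s) : s ^ 2 / 2 ≤ Real.cosh s - 1 := by
  have h := Real.cosh_two_mul (s / 2)
  rw [show 2 * (s / 2) = s by ring] at h
  have h2 := Real.cosh_sq (s / 2)
  have h3 : s / 2 ≤ Real.sinh (s / 2) := Real.self_le_sinh_iff.2 (by linarith)
  have h4 : (s / 2) ^ 2 ≤ Real.sinh (s / 2) ^ 2 := pow_le_pow_left₀ (by linarith) h3 2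
  rw [h, h2]
  nlinarith

lemma ps_upper {s : ℝ} (hs : 0 ≤ s) (hs1 : s ≤ 1) : Real.cosh s - 1 ≤ s ^ 2 := by
  have h := Real.cosh_le_exp_half_sq s
  have hy : s ^ 2 / 2 ≤ 1 / 2 := by nlinarith
  have hy0 : 0 ≤ s ^ 2 / 2 := by positivity
  have h2 := Real.exp_bound_div_one_sub_of_interval hy0 (by linarith : s ^ 2 / 2 < 1)
  have h3 : 1 / (1 - s ^ 2 / 2) ≤ 1 + s ^ 2 := by
    rw [div_le_iff₀ (by linarith)]
    nlinarith
  linarith

lemma hderiv {Z s : ℝ} (hZ : 0 < Z) (hsh : 0 < Real.sinh s) :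
    HasDerivAt (fun s => (1 - Real.cos (Z * (Real.cosh s - 1))) / (Z * Real.sinh s))
      (Real.sin (Z * (Real.cosh s - 1)) -
        (1 - Real.cos (Z * (Real.cosh s - 1))) * Real.cosh s / (Z * Real.sinh s ^ 2)) s := by
  have d0 : HasDerivAt (fun s => Z * (Real.cosh s - 1)) (Z * Real.sinh s) s :=
    ((Real.hasDerivAt_cosh s).sub_const 1).const_mul Z
  have d1 : HasDerivAt (fun s => 1 - Real.cos (Z * (Real.cosh s - 1)))
      (Real.sin (Z * (Real.cosh s - 1)) * (Z * Real.sinh s)) s :=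
    ((d0.cos).const_sub 1).congr_deriv (by ring)
  have d2 : HasDerivAt (fun s => Z * Real.sinh s) (Z * Real.cosh s) s := (Real.hasDerivAt_sinh s).const_mul Z
  have d3 := d1.div d2 (by positivity : Z * Real.sinh s ≠ 0)
  refine d3.congr_deriv ?_
  have hs' : Real.sinh s ≠ 0 := hsh.ne'
  have hZ' : Z ≠ 0 := hZ.ne'
  field_simp

lemma one_sub_cos_nonneg (x : ℝ) : 0 ≤ 1 - Real.cos x := by linarith [Real.cos_le_one x]

lemma kbound {Z a s : ℝ} (hZ : 0 < Z) (ha0 : 0 < a) (hZa : Z * a ^ 2 = 1) (h1 : a ≤ s) (h2 : s ≤ 3 / 2 * a)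
    (hs1 : s ≤ 1) : (1 - Real.cos (1 / 2)) / 9 ≤
      (1 - Real.cos (Z * (Real.cosh s - 1))) * Real.cosh s / (Z * Real.sinh s ^ 2) := by
  have hs0 : 0 < s := lt_of_lt_of_le ha0 h1
  have hl := ps_lower hs0.le
  have hu := ps_upper hs0.le hs1
  have hsh : 0 < Real.sinh s := Real.sinh_pos_iff.2 hs0
  have q0 : a ^ 2 ≤ s ^ 2 := pow_le_pow_left₀ ha0.le h1 2
  have q1 : 1 / 2 ≤ Z * (Real.cosh s - 1) := by
    have e1 := mul_le_mul_of_nonneg_left q0 hZ.le
    have e2 := mul_le_mul_of_nonneg_left hl hZ.le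
    linarith
  have q2' : s ^ 2 ≤ (3 / 2 * a) ^ 2 := pow_le_pow_left₀ hs0.le h2 2
  have q2'' : Z * s ^ 2 ≤ 9 / 4 := by
    have e1 := mul_le_mul_of_nonneg_left q2' hZ.le
    have e2 : Z * (3 / 2 * a) ^ 2 = 9 / 4 := by
      have : Z * (3 / 2 * a) ^ 2 = 9 / 4 * (Z * a ^ 2) := by ring
      rw [this, hZa, mul_one]
    linarith
  have q2 : Z * (Real.cosh s - 1) ≤ Real.pi := by
    have e1 := mul_le_mul_of_nonneg_left hu hZ.le
    have := Real.pi_gt_three
    linarith
  have q3 : 1 - Real.cos (1 / 2) ≤ 1 - Real.cos (Z * (Real.cosh s - 1)) := by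
    have := Real.cos_le_cos_of_nonneg_of_le_pi (by norm_num : (0:ℝ) ≤ 1 / 2) q2 q1
    linarith
  have q4 : Real.sinh s ^ 2 ≤ 3 * s ^ 2 := by
    have h8 := Real.cosh_sq s
    have h9 : Real.sinh s ^ 2 = (Real.cosh s - 1) * (Real.cosh s - 1 + 2) := by
      have : Real.sinh s ^ 2 = Real.cosh s ^ 2 - 1 := by linarith
      rw [this]; ring
    have hs2 : s ^ 2 ≤ 1 := by nlinarith
    have hl0 : 0 ≤ Real.cosh s - 1 := le_trans (by positivity) hl
    have h10 : Real.cosh s - 1 + 2 ≤ 3 := by linarith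
    rw [h9]
    calc (Real.cosh s - 1) * (Real.cosh s - 1 + 2) ≤ s ^ 2 * 3 :=
          mul_le_mul hu h10 (by linarith) (by positivity)
      _ = 3 * s ^ 2 := by ring
  have q5 : Z * Real.sinh s ^ 2 ≤ 9 := by
    have e1 := mul_le_mul_of_nonneg_left q4 hZ.le
    linarith
  have hκ0 := one_sub_cos_nonneg (1 / 2)
  have hZs : 0 < Z * Real.sinh s ^ 2 := by positivity
  rw [le_div_iff₀ hZs]
  have q6 : 1 - Real.cos (1 / 2) ≤ (1 - Real.cos (Z * (Real.cosh s - 1))) * Real.cosh s := by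
    calc 1 - Real.cos (1 / 2) ≤ 1 - Real.cos (Z * (Real.cosh s - 1)) := q3
      _ = (1 - Real.cos (Z * (Real.cosh s - 1))) * 1 := (mul_one _).symm
      _ ≤ _ := mul_le_mul_of_nonneg_left (Real.one_le_cosh s) (one_sub_cos_nonneg _)
  calc (1 - Real.cos (1 / 2)) / 9 * (Z * Real.sinh s ^ 2) ≤ (1 - Real.cos (1 / 2)) / 9 * 9 :=
        mul_le_mul_of_nonneg_left q5 (by positivity)
    _ = 1 - Real.cos (1 / 2) := by ring
    _ ≤ _ := q6

lemma hsmall {Z e : ℝ} (hZ : 0 < Z) (he : 0 < e) (he1 : e ≤ 1) :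
    (1 - Real.cos (Z * (Real.cosh e - 1))) / (Z * Real.sinh e) ≤ Z / 2 * e := by
  have hshe : e ≤ Real.sinh e := Real.self_le_sinh_iff.2 he.le
  have hc := Real.one_sub_sq_div_two_le_cos (x := Z * (Real.cosh e - 1))
  have hp := ps_upper he.le he1
  have hp0 := ps_lower he.le
  have hp00 : 0 ≤ Real.cosh e - 1 := le_trans (by positivity) hp0
  have hshp : 0 < Real.sinh e := lt_of_lt_of_le he hshe
  rw [div_le_iff₀ (by positivity)]
  have h5 : (Z * (Real.cosh e - 1)) ^ 2 ≤ (Z * e ^ 2) ^ 2 :=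
    pow_le_pow_left₀ (by positivity) (mul_le_mul_of_nonneg_left hp hZ.le) 2
  have h7 : Z / 2 * e * (Z * e) ≤ Z / 2 * e * (Z * Real.sinh e) := by gcongr
  have h8 : (Z * e ^ 2) ^ 2 / 2 ≤ Z / 2 * e * (Z * e) := by
    have h9 : e ^ 4 ≤ e ^ 2 := pow_le_pow_of_le_one he.le he1 (by norm_num)
    have e1 : (Z * e ^ 2) ^ 2 / 2 = Z ^ 2 / 2 * e ^ 4 := by ring
    have e2 : Z / 2 * e * (Z * e) = Z ^ 2 / 2 * e ^ 2 := by ring
    rw [e1, e2]
    gcongr
  linarith

/-- `∫_0^S sin (Z (cosh s - 1)) ds ≥ (1 - cos (1/2)) / (18 √Z)`. -/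
theorem sin_int {Z S : ℝ} (hZ : 0 < Z) (hS : 3 / 2 / Real.sqrt Z ≤ S) (h1 : 3 / 2 / Real.sqrt Z ≤ 1) :
    (1 - Real.cos (1 / 2)) / (18 * Real.sqrt Z) ≤ ∫ s in (0:ℝ)..S, Real.sin (Z * (Real.cosh s - 1)) := by
  have hq : 0 < Real.sqrt Z := Real.sqrt_pos.2 hZ
  have hqq : Real.sqrt Z ^ 2 = Z := Real.sq_sqrt hZ.le
  obtain ⟨κ, hκ⟩ : ∃ κ : ℝ, κ = 1 - Real.cos (1 / 2) := ⟨_, rfl⟩
  have hκ0 : 0 ≤ κ := by
    rw [hκ]
    linarith [Real.cos_le_one (1 / 2)]
  rw [← hκ]
  obtain ⟨a, ha⟩ : ∃ a : ℝ, a = 1 / Real.sqrt Z := ⟨_, rfl⟩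
  obtain ⟨b, hb⟩ : ∃ b : ℝ, b = 3 / 2 / Real.sqrt Z := ⟨_, rfl⟩
  have ha0 : 0 < a := by rw [ha]; positivity
  have hab : b = 3 / 2 * a := by rw [ha, hb]; ring
  have hbS : b ≤ S := by rw [hb]; exact hS
  have hb1 : b ≤ 1 := by rw [hb]; exact h1
  have hZa : Z * a ^ 2 = 1 := by
    rw [ha, div_pow, hqq]
    field_simp
  -- the functions
  obtain ⟨h, hh⟩ : ∃ h : ℝ → ℝ, h = fun s => (1 - Real.cos (Z * (Real.cosh s - 1))) / (Z * Real.sinh s) := ⟨_, rfl⟩
  obtain ⟨k, hk⟩ : ∃ k : ℝ → ℝ, k = fun s =>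
    (1 - Real.cos (Z * (Real.cosh s - 1))) * Real.cosh s / (Z * Real.sinh s ^ 2) := ⟨_, rfl⟩
  have hcos : ∀ x : ℝ, 0 ≤ 1 - Real.cos x := fun x => by linarith [Real.cos_le_one x]
  have hsin : Continuous fun s => Real.sin (Z * (Real.cosh s - 1)) := by fun_prop
  have hkc : ∀ e : ℝ, 0 < e → ContinuousOn k (Icc e S) := by
    intro e he
    rw [hk]
    refine ContinuousOn.div (by fun_prop) (by fun_prop) fun s hs => ?_
    have : 0 < Real.sinh s := Real.sinh_pos_iff.2 (lt_of_lt_of_le he hs.1)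
    positivity
  have hk0 : ∀ s : ℝ, 0 ≤ k s := by
    intro s
    rw [hk]
    have := hcos (Z * (Real.cosh s - 1))
    have := Real.cosh_pos s
    positivity
  -- the main estimate, away from zero
  have key : ∀ e : ℝ, 0 < e → e ≤ a → e ≤ 1 →
      κ / (18 * Real.sqrt Z) - e * (1 + Z / 2) ≤ ∫ s in (0:ℝ)..S, Real.sin (Z * (Real.cosh s - 1)) := by
    intro e he hea he1
    have heS : e ≤ S := by linarith
    have hsp : (∫ s in (0:ℝ)..S, Real.sin (Z * (Real.cosh s - 1))) =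
        (∫ s in (0:ℝ)..e, Real.sin (Z * (Real.cosh s - 1))) + ∫ s in e..S, Real.sin (Z * (Real.cosh s - 1)) :=
      (intervalIntegral.integral_add_adjacent_intervals (hsin.intervalIntegrable _ _) (hsin.intervalIntegrable _ _)).symm
    have h1' : -e ≤ ∫ s in (0:ℝ)..e, Real.sin (Z * (Real.cosh s - 1)) := by
      have := intervalIntegral.norm_integral_le_of_norm_le_const (a := 0) (b := e) (C := 1)
        (f := fun s => Real.sin (Z * (Real.cosh s - 1))) (fun x _ => by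
          rw [Real.norm_eq_abs]; exact Real.abs_sin_le_one _)
      rw [Real.norm_eq_abs, sub_zero, abs_of_pos he, one_mul] at this
      exact (abs_le.1 this).1
    have hki : IntervalIntegrable k volume e S := by
      refine ContinuousOn.intervalIntegrable ?_
      rw [uIcc_of_le heS]
      exact hkc e he
    have hder : ∀ s ∈ uIcc e S, HasDerivAt h (Real.sin (Z * (Real.cosh s - 1)) - k s) s := by
      intro s hs
      rw [uIcc_of_le heS] at hs
      rw [hh, hk]
      exact hderiv hZ (Real.sinh_pos_iff.2 (lt_of_lt_of_le he hs.1))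
    have hint : IntervalIntegrable (fun s => Real.sin (Z * (Real.cosh s - 1)) - k s) volume e S :=
      (hsin.intervalIntegrable _ _).sub hki
    have hftc := intervalIntegral.integral_eq_sub_of_hasDerivAt hder hint
    rw [intervalIntegral.integral_sub (hsin.intervalIntegrable _ _) hki] at hftc
    have hhS : 0 ≤ h S := by
      rw [hh]
      have := hcos (Z * (Real.cosh S - 1))
      have : 0 ≤ Real.sinh S := Real.sinh_nonneg_iff.2 (by linarith)
      positivity
    have hhe : h e ≤ Z / 2 * e := by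
      rw [hh]
      exact hsmall hZ he he1
    -- the lower bound for the integral of `k`
    have hkint : κ / (18 * Real.sqrt Z) ≤ ∫ s in e..S, k s := by
      have e1 : IntervalIntegrable k volume e a := hki.mono_set (by
        rw [uIcc_of_le hea, uIcc_of_le heS]; exact Icc_subset_Icc le_rfl (by linarith))
      have e2 : IntervalIntegrable k volume a b := hki.mono_set (by
        rw [uIcc_of_le (by linarith : a ≤ b), uIcc_of_le heS]; exact Icc_subset_Icc hea hbS)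
      have e3 : IntervalIntegrable k volume b S := hki.mono_set (by
        rw [uIcc_of_le hbS, uIcc_of_le heS]; exact Icc_subset_Icc (by linarith) le_rfl)
      have s1 : (∫ s in e..S, k s) = (∫ s in e..a, k s) + (∫ s in a..b, k s) + ∫ s in b..S, k s := by
        rw [intervalIntegral.integral_add_adjacent_intervals e1 e2,
          intervalIntegral.integral_add_adjacent_intervals (e1.trans e2) e3]
      have p1 : 0 ≤ ∫ s in e..a, k s := intervalIntegral.integral_nonneg hea fun s _ => hk0 s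
      have p3 : 0 ≤ ∫ s in b..S, k s := intervalIntegral.integral_nonneg hbS fun s _ => hk0 s
      have p2 : (b - a) * (κ / 9) ≤ ∫ s in a..b, k s := by
        have hconst : (∫ _ in a..b, κ / 9) = (b - a) * (κ / 9) := by
          rw [intervalIntegral.integral_const, smul_eq_mul]
        rw [← hconst]
        refine intervalIntegral.integral_mono_on (by linarith) intervalIntegrable_const e2 fun s hs => ?_
        rw [hk, hκ]
        exact kbound hZ ha0 hZa hs.1 (by rw [← hab]; exact hs.2) (hs.2.trans hb1)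
      have : (b - a) * (κ / 9) = κ / (18 * Real.sqrt Z) := by
        rw [hab, ha]
        field_simp
        ring
      linarith
    linarith
  -- the limit
  by_contra hcon
  push Not at hcon
  obtain ⟨J, hJ⟩ : ∃ J : ℝ, J = ∫ s in (0:ℝ)..S, Real.sin (Z * (Real.cosh s - 1)) := ⟨_, rfl⟩
  rw [← hJ] at hcon key
  obtain ⟨g, hg⟩ : ∃ g : ℝ, g = κ / (18 * Real.sqrt Z) - J := ⟨_, rfl⟩
  have hg0 : 0 < g := by rw [hg]; linarith
  have hD : 0 < 1 + Z / 2 := by positivity
  have h := key (min (min a 1) (g / (2 * (1 + Z / 2)))) (by positivity)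
    ((min_le_left _ _).trans (min_le_left _ _)) ((min_le_left _ _).trans (min_le_right _ _))
  have h2 : min (min a 1) (g / (2 * (1 + Z / 2))) * (1 + Z / 2) ≤ g / 2 := by
    calc _ ≤ g / (2 * (1 + Z / 2)) * (1 + Z / 2) := by gcongr; exact min_le_right _ _
      _ = g / 2 := by field_simp
  linarith

/-- The integral over an interval around zero. -/
theorem sin_int2 {Z s₁ s₂ : ℝ} (hZ : 0 < Z) (h₁ : 3 / 2 / Real.sqrt Z ≤ s₁) (h₂ : 3 / 2 / Real.sqrt Z ≤ s₂)
    (h1 : 3 / 2 / Real.sqrt Z ≤ 1) :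
    (1 - Real.cos (1 / 2)) / (18 * Real.sqrt Z) ≤ ∫ s in (-s₁)..s₂, Real.sin (Z * (Real.cosh s - 1)) := by
  have hsin : Continuous fun s => Real.sin (Z * (Real.cosh s - 1)) := by fun_prop
  rw [← intervalIntegral.integral_add_adjacent_intervals (hsin.intervalIntegrable (-s₁) 0)
    (hsin.intervalIntegrable 0 s₂)]
  have e : (∫ s in (-s₁)..0, Real.sin (Z * (Real.cosh s - 1))) = ∫ s in (0:ℝ)..s₁, Real.sin (Z * (Real.cosh s - 1)) := by
    have := intervalIntegral.integral_comp_neg (a := 0) (b := s₁) (fun s => Real.sin (Z * (Real.cosh s - 1)))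
    simp only [Real.cosh_neg, neg_zero] at this
    exact this.symm
  rw [e]
  have a1 := sin_int hZ h₁ h1
  have a2 := sin_int hZ h₂ h1
  have : 0 ≤ (1 - Real.cos (1 / 2)) / (18 * Real.sqrt Z) := by
    have := Real.cos_le_one (1 / 2)
    have : 0 ≤ 1 - Real.cos (1 / 2) := by linarith
    positivity
  linarith

end Pool.Agent.Helper21.E7
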