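import Pool.Agent.Helper66.E7.Defs
import Pool.Agent.Helper21.E7.H0

/-!
# Block H of project 7E: the main term
-/

set_option autoImplicit false

open Complex Filter Topology MeasureTheory Set

namespace Pool.Agent.Helper21.E7

open Pool.Agent.E7 (kap av osc)

lemma kap_cont (R : ℝ) : Continuous (kap R) := by
  unfold Pool.Agent.E7.kap
  fun_prop

lemma kap_nonneg {R τ : ℝ} (hR : 0 < R) (h : τ ∈ Icc (0:ℝ) R) : 0 ≤ kap R τ := by
  unfold Pool.Agent.E7.kap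
  have h1 := h.1
  have h2 : 0 ≤ R - τ := by linarith [h.2]
  positivity

lemma kap_int {R : ℝ} (hR : 0 < R) : ∫ τ in (0:ℝ)..R, kap R τ = 1 := by
  have hd : ∀ τ ∈ uIcc (0:ℝ) R, HasDerivAt (fun τ : ℝ => (3 * R * τ ^ 2 - 2 * τ ^ 3) / R ^ 3) (kap R τ) τ := by
    intro τ _
    have h1 : HasDerivAt (fun τ : ℝ => (3 * R * τ ^ 2 - 2 * τ ^ 3) / R ^ 3)
        ((3 * R * (2 * τ) - 2 * (3 * τ ^ 2)) / R ^ 3) τ := by
      have a1 := (hasDerivAt_pow 2 τ).const_mul (3 * R)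
      have a2 := (hasDerivAt_pow 3 τ).const_mul (2:ℝ)
      refine ((a1.sub a2).div_const (R ^ 3)).congr_deriv ?_
      norm_num
    refine h1.congr_deriv ?_
    unfold Pool.Agent.E7.kap
    congr 1
    ring
  rw [intervalIntegral.integral_eq_sub_of_hasDerivAt hd ((kap_cont R).intervalIntegrable _ _)]
  have : R ≠ 0 := hR.ne'
  field_simp
  ring

/-- two integrations by parts -/
lemma kap_sin {R ω A : ℝ} (hR : 0 < R) (hω : 1 ≤ R * ω) :
    |∫ τ in (0:ℝ)..R, kap R τ * Real.sin (A + ω * τ)| ≤ 36 / (R * ω) ^ 2 := by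
  have hω0 : 0 < ω := by
    by_contra h
    push Not at h
    nlinarith
  obtain ⟨G, hG⟩ : ∃ G : ℝ → ℝ, G = fun τ => -(kap R τ * Real.cos (A + ω * τ)) / ω +
      6 * (R - 2 * τ) / R ^ 3 * Real.sin (A + ω * τ) / ω ^ 2 - 12 / R ^ 3 * Real.cos (A + ω * τ) / ω ^ 3 := ⟨_, rfl⟩
  have hd : ∀ τ ∈ uIcc (0:ℝ) R, HasDerivAt G (kap R τ * Real.sin (A + ω * τ)) τ := by
    intro τ _
    have l0 : HasDerivAt (fun τ : ℝ => A + ω * τ) ω τ := by
      simpa using ((hasDerivAt_id τ).const_mul ω).const_add A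
    have k0 : HasDerivAt (fun τ : ℝ => kap R τ) (6 * (R - 2 * τ) / R ^ 3) τ := by
      unfold Pool.Agent.E7.kap
      have a1 : HasDerivAt (fun τ : ℝ => 6 * τ * (R - τ)) (6 * 1 * (R - τ) + 6 * τ * (0 - 1)) τ :=
        ((hasDerivAt_id τ).const_mul 6).mul ((hasDerivAt_const τ R).sub (hasDerivAt_id τ))
      refine (a1.div_const (R ^ 3)).congr_deriv ?_
      congr 1
      ring
    have k1 : HasDerivAt (fun τ : ℝ => 6 * (R - 2 * τ) / R ^ 3) (-12 / R ^ 3) τ := by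
      have a1 : HasDerivAt (fun τ : ℝ => 6 * (R - 2 * τ)) (6 * (0 - 2 * 1)) τ :=
        ((hasDerivAt_const τ R).sub ((hasDerivAt_id τ).const_mul 2)).const_mul 6
      refine (a1.div_const (R ^ 3)).congr_deriv ?_
      congr 1
      ring
    have t1 := ((k0.mul l0.cos).neg).div_const ω
    have t2 := (k1.mul l0.sin).div_const (ω ^ 2)
    have t3 := (l0.cos.const_mul (12 / R ^ 3)).div_const (ω ^ 3)
    rw [hG]
    refine ((t1.add t2).sub t3).congr_deriv ?_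
    have hR' : R ≠ 0 := hR.ne'
    have hω' : ω ≠ 0 := hω0.ne'
    field_simp
    ring
  rw [intervalIntegral.integral_eq_sub_of_hasDerivAt hd
    (((kap_cont R).mul (by fun_prop)).intervalIntegrable _ _)]
  have g1 : ∀ x : ℝ, |x| = R → |6 * x / R ^ 3 * Real.sin (A + ω * ((R - x) / 2)) / ω ^ 2| ≤ 6 / (R * ω) ^ 2 := by
    intro x hx
    rw [abs_div, abs_mul, abs_div, abs_mul, hx, abs_of_pos (by positivity : 0 < R ^ 3),
      abs_of_pos (by positivity : 0 < ω ^ 2), abs_of_pos (by norm_num : (0:ℝ) < 6)]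
    calc 6 * R / R ^ 3 * |Real.sin (A + ω * ((R - x) / 2))| / ω ^ 2 ≤ 6 * R / R ^ 3 * 1 / ω ^ 2 := by
          gcongr; exact Real.abs_sin_le_one _
      _ = 6 / (R * ω) ^ 2 := by field_simp
  have g2 : ∀ y : ℝ, |12 / R ^ 3 * Real.cos y / ω ^ 3| ≤ 12 / (R * ω) ^ 2 := by
    intro y
    rw [abs_div, abs_mul, abs_of_pos (by positivity : 0 < 12 / R ^ 3), abs_of_pos (by positivity : 0 < ω ^ 3)]
    calc 12 / R ^ 3 * |Real.cos y| / ω ^ 3 ≤ 12 / R ^ 3 * 1 / ω ^ 3 := by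
          gcongr; exact Real.abs_cos_le_one _
      _ = 12 / (R * ω) ^ 3 := by field_simp
      _ ≤ 12 / (R * ω) ^ 2 := by
          gcongr 12 / ?_
          exact pow_le_pow_right₀ hω (by norm_num)
  have k0 : kap R 0 = 0 := by unfold Pool.Agent.E7.kap; ring
  have kR : kap R R = 0 := by unfold Pool.Agent.E7.kap; ring
  have e0 : G 0 = 6 * R / R ^ 3 * Real.sin (A + ω * ((R - R) / 2)) / ω ^ 2 - 12 / R ^ 3 * Real.cos (A + ω * 0) / ω ^ 3 := by
    rw [hG]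
    show -(kap R 0 * Real.cos (A + ω * 0)) / ω +
      6 * (R - 2 * 0) / R ^ 3 * Real.sin (A + ω * 0) / ω ^ 2 - 12 / R ^ 3 * Real.cos (A + ω * 0) / ω ^ 3 = _
    rw [k0, sub_self, zero_div, mul_zero, zero_mul, neg_zero, zero_div, zero_add, mul_zero, sub_zero]
  have eR : G R = 6 * (-R) / R ^ 3 * Real.sin (A + ω * ((R - -R) / 2)) / ω ^ 2 -
      12 / R ^ 3 * Real.cos (A + ω * R) / ω ^ 3 := by
    rw [hG]
    show -(kap R R * Real.cos (A + ω * R)) / ω +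
      6 * (R - 2 * R) / R ^ 3 * Real.sin (A + ω * R) / ω ^ 2 - 12 / R ^ 3 * Real.cos (A + ω * R) / ω ^ 3 = _
    rw [kR, show (R - -R) / 2 = R by ring, show R - 2 * R = -R by ring]
    ring
  have b1 := g1 R (abs_of_pos hR)
  have b2 := g1 (-R) (by rw [abs_neg, abs_of_pos hR])
  have b3 := g2 (A + ω * 0)
  have b4 := g2 (A + ω * R)
  rw [e0, eR]
  rw [abs_le] at b1 b2 b3 b4 ⊢
  have e6 : 36 / (R * ω) ^ 2 = 6 / (R * ω) ^ 2 + 6 / (R * ω) ^ 2 + 12 / (R * ω) ^ 2 + 12 / (R * ω) ^ 2 := by ring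
  constructor <;> linarith [b1.1, b1.2, b2.1, b2.2, b3.1, b3.2, b4.1, b4.2]

/-- the identity behind the main term -/
lemma pointwise {μ : ℝ} (hμ : 0 < μ) (Rk T ρ f q τ : ℝ) :
    (cexp (-((f + 4 * Real.pi * ρ * T / μ : ℝ) : ℂ) * I) *
      (((Rk * Real.cos (2 * Real.pi * (ρ * T + τ) * (1 * Real.exp (-q) + 1 / μ ^ 2 * Real.exp q) + f) : ℝ) : ℂ) *
        cexp (-((2 * Real.pi * (2 / μ) * τ : ℝ) : ℂ) * I))).im =
    1 / 2 * (Rk * Real.sin ((4 * Real.pi * ρ * T / μ + 4 * Real.pi * τ / μ) * (Real.cosh (q - Real.log μ) - 1))) -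
    1 / 2 * (Rk * Real.sin ((2 * Real.pi * ρ * T * (1 * Real.exp (-q) + 1 / μ ^ 2 * Real.exp q) + 2 * f +
      4 * Real.pi * ρ * T / μ) + 2 * Real.pi * (1 * Real.exp (-q) + 1 / μ ^ 2 * Real.exp q + 2 / μ) * τ)) := by
  have hch : (1 * Real.exp (-q) + 1 / μ ^ 2 * Real.exp q) = 2 / μ * Real.cosh (q - Real.log μ) := by
    rw [Real.cosh_eq, neg_sub, Real.exp_sub, Real.exp_sub, Real.exp_log hμ, Real.exp_neg]
    have := (Real.exp_pos q).ne'
    field_simp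
    ring
  obtain ⟨c, hc⟩ : ∃ c : ℝ, c = Real.cosh (q - Real.log μ) := ⟨_, rfl⟩
  rw [hch, ← hc]
  have e1 : cexp (-((f + 4 * Real.pi * ρ * T / μ : ℝ) : ℂ) * I) *
      (((Rk * Real.cos (2 * Real.pi * (ρ * T + τ) * (2 / μ * c) + f) : ℝ) : ℂ) *
        cexp (-((2 * Real.pi * (2 / μ) * τ : ℝ) : ℂ) * I)) =
      ((Rk * Real.cos (2 * Real.pi * (ρ * T + τ) * (2 / μ * c) + f) : ℝ) : ℂ) *
        cexp (((-(f + 4 * Real.pi * ρ * T / μ + 2 * Real.pi * (2 / μ) * τ) : ℝ) : ℂ) * I) := by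
    rw [mul_left_comm, ← Complex.exp_add]
    congr 2
    push_cast
    ring
  rw [e1, Complex.im_ofReal_mul, Complex.exp_ofReal_mul_I_im, Real.sin_neg]
  obtain ⟨A, hA⟩ : ∃ A : ℝ, A = 2 * Real.pi * (ρ * T + τ) * (2 / μ * c) + f := ⟨_, rfl⟩
  obtain ⟨B, hB⟩ : ∃ B : ℝ, B = f + 4 * Real.pi * ρ * T / μ + 2 * Real.pi * (2 / μ) * τ := ⟨_, rfl⟩
  have s1 : (4 * Real.pi * ρ * T / μ + 4 * Real.pi * τ / μ) * (c - 1) = A - B := by
    rw [hA, hB]
    ring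
  have s2 : (2 * Real.pi * ρ * T * (2 / μ * c) + 2 * f + 4 * Real.pi * ρ * T / μ) +
      2 * Real.pi * (2 / μ * c + 2 / μ) * τ = A + B := by
    rw [hA, hB]
    ring
  rw [s1, s2, ← hA, ← hB, Real.sin_sub, Real.sin_add]
  ring

/-- first integrand -/
noncomputable def E1 (T ρ μ q τ : ℝ) : ℝ := kap (T ^ (1 / 3 : ℝ)) τ *
  Real.sin ((4 * Real.pi * ρ * T / μ + 4 * Real.pi * τ / μ) * (Real.cosh (q - Real.log μ) - 1))

/-- second integrand -/
noncomputable def E2 (T ρ μ f q τ : ℝ) : ℝ := kap (T ^ (1 / 3 : ℝ)) τ *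
  Real.sin ((2 * Real.pi * ρ * T * (1 * Real.exp (-q) + 1 / μ ^ 2 * Real.exp q) + 2 * f +
      4 * Real.pi * ρ * T / μ) + 2 * Real.pi * (1 * Real.exp (-q) + 1 / μ ^ 2 * Real.exp q + 2 / μ) * τ)

lemma E1_cont (T ρ μ : ℝ) : Continuous (Function.uncurry (E1 T ρ μ)) := by
  unfold E1 Pool.Agent.E7.kap Function.uncurry
  fun_prop

lemma E2_cont (T ρ μ f : ℝ) : Continuous (Function.uncurry (E2 T ρ μ f)) := by
  unfold E2 Pool.Agent.E7.kap Function.uncurry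
  fun_prop

lemma im_osc {T ρ μ f : ℝ} (hμ : 0 < μ) :
    (cexp (-((f + 4 * Real.pi * ρ * T / μ : ℝ) : ℂ) * I) *
      osc T ρ (2 / μ) 1 (1 / μ ^ 2) f (Real.log ρ) (3 * Real.log T)).im =
    1 / 2 * (∫ q in (Real.log ρ)..(3 * Real.log T), ∫ τ in (0:ℝ)..(T ^ (1 / 3 : ℝ)), E1 T ρ μ q τ) -
    1 / 2 * (∫ q in (Real.log ρ)..(3 * Real.log T), ∫ τ in (0:ℝ)..(T ^ (1 / 3 : ℝ)), E2 T ρ μ f q τ) := by
  obtain ⟨F, hF⟩ : ∃ F : ℝ → ℝ → ℂ, F = fun q τ => cexp (-((f + 4 * Real.pi * ρ * T / μ : ℝ) : ℂ) * I) *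
      (((kap (T ^ (1 / 3 : ℝ)) τ * Real.cos (2 * Real.pi * (ρ * T + τ) * (1 * Real.exp (-q) + 1 / μ ^ 2 * Real.exp q) + f) : ℝ) : ℂ) *
        cexp (-((2 * Real.pi * (2 / μ) * τ : ℝ) : ℂ) * I)) := ⟨_, rfl⟩
  have hFc : Continuous (Function.uncurry F) := by
    rw [hF]
    unfold Pool.Agent.E7.kap Function.uncurry
    fun_prop
  have h1 : cexp (-((f + 4 * Real.pi * ρ * T / μ : ℝ) : ℂ) * I) *
      osc T ρ (2 / μ) 1 (1 / μ ^ 2) f (Real.log ρ) (3 * Real.log T) =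
      ∫ q in (Real.log ρ)..(3 * Real.log T), ∫ τ in (0:ℝ)..(T ^ (1 / 3 : ℝ)), F q τ := by
    unfold Pool.Agent.E7.osc Pool.Agent.E7.av
    rw [← intervalIntegral.integral_const_mul]
    congr 1
    funext q
    rw [← intervalIntegral.integral_const_mul]
    rw [hF]
  have hin : ∀ q : ℝ, (∫ τ in (0:ℝ)..(T ^ (1 / 3 : ℝ)), F q τ).im =
      1 / 2 * (∫ τ in (0:ℝ)..(T ^ (1 / 3 : ℝ)), E1 T ρ μ q τ) -
      1 / 2 * (∫ τ in (0:ℝ)..(T ^ (1 / 3 : ℝ)), E2 T ρ μ f q τ) := by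
    intro q
    have c0 : Continuous (F q) := hFc.comp (Continuous.prodMk_right q)
    have c1 : Continuous (E1 T ρ μ q) := (E1_cont T ρ μ).comp (Continuous.prodMk_right q)
    have c2 : Continuous (E2 T ρ μ f q) := (E2_cont T ρ μ f).comp (Continuous.prodMk_right q)
    have e := Complex.imCLM.intervalIntegral_comp_comm (c0.intervalIntegrable (μ := volume) 0 (T ^ (1 / 3 : ℝ)))
    have e' : (∫ τ in (0:ℝ)..(T ^ (1 / 3 : ℝ)), F q τ).im = ∫ τ in (0:ℝ)..(T ^ (1 / 3 : ℝ)), (F q τ).im := by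
      simpa using e.symm
    rw [e', ← intervalIntegral.integral_const_mul, ← intervalIntegral.integral_const_mul,
      ← intervalIntegral.integral_sub ((c1.const_mul _).intervalIntegrable _ _) ((c2.const_mul _).intervalIntegrable _ _)]
    congr 1
    funext τ
    rw [hF]
    exact pointwise hμ _ T ρ f q τ
  have cF : Continuous (fun q => ∫ τ in (0:ℝ)..(T ^ (1 / 3 : ℝ)), F q τ) :=
    intervalIntegral.continuous_parametric_intervalIntegral_of_continuous' hFc _ _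
  have cE1 : Continuous (fun q => ∫ τ in (0:ℝ)..(T ^ (1 / 3 : ℝ)), E1 T ρ μ q τ) :=
    intervalIntegral.continuous_parametric_intervalIntegral_of_continuous' (E1_cont T ρ μ) _ _
  have cE2 : Continuous (fun q => ∫ τ in (0:ℝ)..(T ^ (1 / 3 : ℝ)), E2 T ρ μ f q τ) :=
    intervalIntegral.continuous_parametric_intervalIntegral_of_continuous' (E2_cont T ρ μ f) _ _
  have e := Complex.imCLM.intervalIntegral_comp_comm
    (cF.intervalIntegrable (μ := volume) (Real.log ρ) (3 * Real.log T))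
  have e' : (∫ q in (Real.log ρ)..(3 * Real.log T), ∫ τ in (0:ℝ)..(T ^ (1 / 3 : ℝ)), F q τ).im =
      ∫ q in (Real.log ρ)..(3 * Real.log T), (∫ τ in (0:ℝ)..(T ^ (1 / 3 : ℝ)), F q τ).im := by
    simpa using e.symm
  rw [h1, e', ← intervalIntegral.integral_const_mul, ← intervalIntegral.integral_const_mul,
    ← intervalIntegral.integral_sub ((cE1.const_mul _).intervalIntegrable _ _) ((cE2.const_mul _).intervalIntegrable _ _)]
  congr 1
  funext q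
  exact hin q

/-- the error term -/
lemma E2_bd {T ρ μ f : ℝ} (hT : 1 ≤ T) (hρ : 1 ≤ ρ) (hμ : 0 < μ) (h : μ ≤ T ^ (1 / 3 : ℝ))
    (hl : Real.log ρ ≤ 3 * Real.log T) :
    |∫ q in (Real.log ρ)..(3 * Real.log T), ∫ τ in (0:ℝ)..(T ^ (1 / 3 : ℝ)), E2 T ρ μ f q τ| ≤
      36 * (μ / T ^ (1 / 3 : ℝ)) ^ 2 * (3 * Real.log T) := by
  have hR : 0 < T ^ (1 / 3 : ℝ) := Real.rpow_pos_of_pos (by linarith) _
  obtain ⟨R, hRd⟩ : ∃ R : ℝ, R = T ^ (1 / 3 : ℝ) := ⟨_, rfl⟩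
  have hb : ∀ q ∈ uIoc (Real.log ρ) (3 * Real.log T),
      ‖∫ τ in (0:ℝ)..(T ^ (1 / 3 : ℝ)), E2 T ρ μ f q τ‖ ≤ 36 * (μ / T ^ (1 / 3 : ℝ)) ^ 2 := by
    intro q _
    unfold E2
    rw [← hRd] at hR h ⊢
    have hν : 0 ≤ 1 * Real.exp (-q) + 1 / μ ^ 2 * Real.exp q := by positivity
    obtain ⟨ω, hω⟩ : ∃ ω : ℝ, ω = 2 * Real.pi * (1 * Real.exp (-q) + 1 / μ ^ 2 * Real.exp q + 2 / μ) := ⟨_, rfl⟩
    have hω1 : 1 / μ ≤ ω := by
      rw [hω]
      have p3 := Real.pi_gt_three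
      have : 0 < 1 / μ := by positivity
      have e2 : 2 / μ = 2 * (1 / μ) := by ring
      rw [e2]
      nlinarith [mul_nonneg Real.pi_pos.le hν, mul_pos Real.pi_pos this]
    have hRω : R / μ ≤ R * ω := by
      calc R / μ = R * (1 / μ) := by ring
        _ ≤ R * ω := mul_le_mul_of_nonneg_left hω1 hR.le
    have h1 : 1 ≤ R / μ := (one_le_div hμ).2 h
    rw [← hω, Real.norm_eq_abs]
    refine (kap_sin hR (h1.trans hRω)).trans ?_
    calc 36 / (R * ω) ^ 2 ≤ 36 / (R / μ) ^ 2 := by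
          gcongr
      _ = 36 * (μ / R) ^ 2 := by field_simp
  have := intervalIntegral.norm_integral_le_of_norm_le_const hb
  rw [Real.norm_eq_abs] at this
  refine this.trans ?_
  have hρl : 0 ≤ Real.log ρ := Real.log_nonneg hρ
  rw [abs_of_nonneg (by linarith)]
  have : 0 ≤ 36 * (μ / T ^ (1 / 3 : ℝ)) ^ 2 := by positivity
  nlinarith

/-- the main term -/
lemma E1_bd {T ρ μ : ℝ} (hT : 1 ≤ T) (hρ : 1 ≤ ρ) (hμ : 5 / 4 * ρ ≤ μ)
    (hZ : 64 ≤ 4 * Real.pi * ρ * T / μ) (hl : Real.log μ + 1 ≤ 3 * Real.log T) :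
    (1 - Real.cos (1 / 2)) / (18 * Real.sqrt (2 * (4 * Real.pi * ρ * T / μ))) ≤
    ∫ q in (Real.log ρ)..(3 * Real.log T), ∫ τ in (0:ℝ)..(T ^ (1 / 3 : ℝ)), E1 T ρ μ q τ := by
  have hR : 0 < T ^ (1 / 3 : ℝ) := Real.rpow_pos_of_pos (by linarith) _
  have hRT : T ^ (1 / 3 : ℝ) ≤ T := by
    calc T ^ (1 / 3 : ℝ) ≤ T ^ (1 : ℝ) := Real.rpow_le_rpow_of_exponent_le hT (by norm_num)
      _ = T := Real.rpow_one T
  have hμ0 : 0 < μ := by linarith
  have hρ0 : 0 < ρ := by linarith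
  have hT0 : 0 < T := by linarith
  have hκ : 0 ≤ 1 - Real.cos (1 / 2) := one_sub_cos_nonneg _
  have hsw : (∫ q in (Real.log ρ)..(3 * Real.log T), ∫ τ in (0:ℝ)..(T ^ (1 / 3 : ℝ)), E1 T ρ μ q τ) =
      ∫ τ in (0:ℝ)..(T ^ (1 / 3 : ℝ)), ∫ q in (Real.log ρ)..(3 * Real.log T), E1 T ρ μ q τ := by
    apply MeasureTheory.intervalIntegral_intervalIntegral_swap
    have hc : IsCompact (uIcc (Real.log ρ) (3 * Real.log T) ×ˢ uIcc (0:ℝ) (T ^ (1 / 3 : ℝ))) :=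
      isCompact_uIcc.prod isCompact_uIcc
    have := (E1_cont T ρ μ).continuousOn.integrableOn_compact (μ := volume) hc
    exact this.mono_set (Set.prod_mono uIoc_subset_uIcc uIoc_subset_uIcc)
  rw [hsw]
  have hin : ∀ τ ∈ Icc (0:ℝ) (T ^ (1 / 3 : ℝ)), kap (T ^ (1 / 3 : ℝ)) τ *
      ((1 - Real.cos (1 / 2)) / (18 * Real.sqrt (2 * (4 * Real.pi * ρ * T / μ)))) ≤
      ∫ q in (Real.log ρ)..(3 * Real.log T), E1 T ρ μ q τ := by
    intro τ hτ
    unfold E1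
    rw [intervalIntegral.integral_const_mul]
    refine mul_le_mul_of_nonneg_left ?_ (kap_nonneg hR hτ)
    obtain ⟨Z, hZd⟩ : ∃ Z : ℝ, Z = 4 * Real.pi * ρ * T / μ + 4 * Real.pi * τ / μ := ⟨_, rfl⟩
    rw [← hZd, intervalIntegral.integral_comp_sub_right (fun s => Real.sin (Z * (Real.cosh s - 1)))]
    have hτ0 := hτ.1
    have hp := Real.pi_pos
    have q1 : 0 ≤ 4 * Real.pi * τ / μ := by positivity
    have q2 : 4 * Real.pi * τ / μ ≤ 4 * Real.pi * ρ * T / μ := by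
      have : τ ≤ ρ * T := by nlinarith [hτ.2]
      have : 4 * Real.pi * τ ≤ 4 * Real.pi * ρ * T := by nlinarith
      gcongr
    have hZ1 : 64 ≤ Z := by linarith
    have hZ2 : Z ≤ 2 * (4 * Real.pi * ρ * T / μ) := by linarith
    have hZ0 : 0 < Z := by linarith
    have hs8 : 8 ≤ Real.sqrt Z := by
      rw [show (8:ℝ) = Real.sqrt 64 by rw [show (64:ℝ) = 8 ^ 2 by norm_num, Real.sqrt_sq (by norm_num)]]
      exact Real.sqrt_le_sqrt hZ1
    have hs0 : 0 < Real.sqrt Z := by linarith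
    have h15 : 3 / 2 / Real.sqrt Z ≤ 1 / 5 := by
      rw [div_le_iff₀ hs0]
      linarith
    have hlog : 1 / 5 ≤ Real.log μ - Real.log ρ := by
      rw [← Real.log_div hμ0.ne' hρ0.ne']
      have h54 : 5 / 4 ≤ μ / ρ := by
        rw [le_div_iff₀ hρ0]
        exact hμ
      have := Real.one_sub_inv_le_log_of_pos (x := μ / ρ) (by positivity)
      have h' : (μ / ρ)⁻¹ ≤ (5 / 4)⁻¹ := inv_anti₀ (by norm_num) h54
      rw [inv_div] at this h'
      norm_num at h'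
      linarith
    have key := sin_int2 (Z := Z) (s₁ := Real.log μ - Real.log ρ) (s₂ := 3 * Real.log T - Real.log μ) hZ0
      (h15.trans hlog) (by linarith) (by linarith)
    rw [neg_sub] at key
    refine le_trans ?_ key
    gcongr
  have hk : (∫ τ in (0:ℝ)..(T ^ (1 / 3 : ℝ)), kap (T ^ (1 / 3 : ℝ)) τ *
      ((1 - Real.cos (1 / 2)) / (18 * Real.sqrt (2 * (4 * Real.pi * ρ * T / μ))))) =
      (1 - Real.cos (1 / 2)) / (18 * Real.sqrt (2 * (4 * Real.pi * ρ * T / μ))) := by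
    rw [intervalIntegral.integral_mul_const, kap_int hR, one_mul]
  rw [← hk]
  refine intervalIntegral.integral_mono_on hR.le (((kap_cont _).mul continuous_const).intervalIntegrable _ _) ?_ hin
  have cE1 : Continuous (fun τ => ∫ q in (Real.log ρ)..(3 * Real.log T), E1 T ρ μ q τ) :=
    intervalIntegral.continuous_parametric_intervalIntegral_of_continuous'
      (f := fun τ q => E1 T ρ μ q τ) ((E1_cont T ρ μ).comp continuous_swap) _ _
  exact cE1.intervalIntegrable _ _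

theorem stmtH : Pool.Agent.E7.StmtH := by
  obtain ⟨κ, hκd⟩ : ∃ κ : ℝ, κ = 1 - Real.cos (1 / 2) := ⟨_, rfl⟩
  have hκ : 0 < κ := by
    rw [hκd]
    have h1 := Real.cos_lt_cos_of_nonneg_of_le_pi (x := 0) (y := 1 / 2) le_rfl
      (by linarith [Real.pi_gt_three]) (by norm_num)
    rw [Real.cos_zero] at h1
    linarith
  have hp := Real.pi_pos
  have hs8 : 0 < Real.sqrt (8 * Real.pi) := Real.sqrt_pos.2 (by positivity)
  obtain ⟨c, hcd⟩ : ∃ c : ℝ, c = κ / (72 * Real.sqrt (8 * Real.pi)) := ⟨_, rfl⟩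
  have hc : 0 < c := by rw [hcd]; positivity
  have ev1 : ∀ᶠ T : ℝ in atTop, Real.log T ≤ (c / 54) * T ^ (1 / 10 : ℝ) := by
    have h := (isLittleO_log_rpow_atTop (r := 1 / 10) (by norm_num)).bound (c := c / 54) (by positivity)
    filter_upwards [h, eventually_ge_atTop (1:ℝ)] with T h1 h2
    rw [Real.norm_of_nonneg (Real.log_nonneg h2), Real.norm_of_nonneg (Real.rpow_nonneg (by linarith) _)] at h1
    exact h1
  obtain ⟨T1, hT1⟩ := (ev1.and (eventually_ge_atTop (100:ℝ))).exists_forall_of_atTop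
  refine ⟨c, T1, hc, ?_⟩
  intro T hT ρ hρ μ hμ hμT f
  obtain ⟨hlog, hT100⟩ := hT1 T hT
  have hT0 : 0 < T := by linarith
  have hT1' : 1 ≤ T := by linarith
  have hρ0 : 0 < ρ := by linarith
  have hμ0 : 0 < μ := by linarith
  have hμ1 : 1 ≤ μ := by linarith
  have hlT : 1 ≤ Real.log T := by
    rw [Real.le_log_iff_exp_le hT0]
    have := Real.exp_one_lt_d9
    linarith
  have hlogμ : Real.log μ ≤ 1 / 100 * Real.log T := by
    calc Real.log μ ≤ Real.log (T ^ (1 / 100 : ℝ)) := Real.log_le_log hμ0 hμT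
      _ = _ := Real.log_rpow hT0 _
  have hlogρ : Real.log ρ ≤ Real.log μ := Real.log_le_log hρ0 (by linarith)
  -- lower bound for `Z`
  have hZ : 64 ≤ 4 * Real.pi * ρ * T / μ := by
    rw [le_div_iff₀ hμ0]
    have h2 : μ ≤ T ^ (1 / 2 : ℝ) := hμT.trans (Real.rpow_le_rpow_of_exponent_le hT1' (by norm_num))
    have h3 : 10 ≤ T ^ (1 / 2 : ℝ) := by
      rw [← Real.sqrt_eq_rpow, show (10:ℝ) = Real.sqrt (10 ^ 2) by rw [Real.sqrt_sq (by norm_num)]]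
      exact Real.sqrt_le_sqrt (by linarith)
    have h4 : T ^ (1 / 2 : ℝ) * T ^ (1 / 2 : ℝ) = T := by
      rw [← Real.rpow_add hT0]
      norm_num
    have p3 := Real.pi_gt_three
    have h5 : 12 * T ≤ 4 * Real.pi * ρ * T := by
      have : 12 ≤ 4 * Real.pi * ρ := by nlinarith
      exact mul_le_mul_of_nonneg_right this hT0.le
    nlinarith
  have b1 := E1_bd (T := T) (ρ := ρ) (μ := μ) hT1' hρ hμ hZ (by linarith)
  have b2 := E2_bd (T := T) (ρ := ρ) (μ := μ) (f := f) hT1' hρ hμ0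
    (hμT.trans (Real.rpow_le_rpow_of_exponent_le hT1' (by norm_num))) (by linarith)
  have hw : ‖cexp (-((f + 4 * Real.pi * ρ * T / μ : ℝ) : ℂ) * I)‖ = 1 := by
    rw [← Complex.ofReal_neg, Complex.norm_exp_ofReal_mul_I]
  have hn : (cexp (-((f + 4 * Real.pi * ρ * T / μ : ℝ) : ℂ) * I) *
      osc T ρ (2 / μ) 1 (1 / μ ^ 2) f (Real.log ρ) (3 * Real.log T)).im ≤
      ‖osc T ρ (2 / μ) 1 (1 / μ ^ 2) f (Real.log ρ) (3 * Real.log T)‖ := by
    refine (Complex.im_le_norm _).trans ?_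
    rw [norm_mul, hw, one_mul]
  refine le_trans ?_ hn
  rw [im_osc hμ0]
  rw [← hκd] at b1
  have b2' := (abs_le.1 b2).2
  -- the main term
  have m1 : κ / (18 * Real.sqrt (2 * (4 * Real.pi * ρ * T / μ))) = 4 * c * Real.sqrt (μ / (ρ * T)) := by
    have e1 : 2 * (4 * Real.pi * ρ * T / μ) = (8 * Real.pi) * (ρ * T / μ) := by ring
    have e2 : Real.sqrt (μ / (ρ * T)) = (Real.sqrt (ρ * T / μ))⁻¹ := by
      rw [← Real.sqrt_inv, inv_div]
    have h0 : 0 < Real.sqrt (ρ * T / μ) := Real.sqrt_pos.2 (by positivity)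
    rw [e1, Real.sqrt_mul (by positivity), e2, hcd]
    field_simp
    norm_num
  -- the error term
  have m2 : 36 * (μ / T ^ (1 / 3 : ℝ)) ^ 2 * (3 * Real.log T) ≤ 2 * c * Real.sqrt (μ / (ρ * T)) := by
    have h1 : T ^ (-(1 / 2) : ℝ) ≤ Real.sqrt (μ / (ρ * T)) := by
      have : T ^ (-(1 / 2) : ℝ) = Real.sqrt (1 / T) := by
        rw [one_div T, Real.sqrt_inv, Real.sqrt_eq_rpow, Real.rpow_neg hT0.le]
      rw [this]
      apply Real.sqrt_le_sqrt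
      rw [div_le_div_iff₀ hT0 (by positivity)]
      nlinarith
    have h2 : (μ / T ^ (1 / 3 : ℝ)) ^ 2 ≤ T ^ (-(3 / 5) : ℝ) := by
      have : μ / T ^ (1 / 3 : ℝ) ≤ T ^ (-(3 / 10) : ℝ) := by
        rw [div_le_iff₀ (by positivity), ← Real.rpow_add hT0]
        refine hμT.trans (Real.rpow_le_rpow_of_exponent_le hT1' (by norm_num))
      calc (μ / T ^ (1 / 3 : ℝ)) ^ 2 ≤ (T ^ (-(3 / 10) : ℝ)) ^ 2 := by gcongr
        _ = T ^ (-(3 / 5) : ℝ) := by
          rw [← Real.rpow_natCast, ← Real.rpow_mul hT0.le]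
          norm_num
    have h3 : T ^ (-(3 / 5) : ℝ) * T ^ (1 / 10 : ℝ) = T ^ (-(1 / 2) : ℝ) := by
      rw [← Real.rpow_add hT0]
      norm_num
    have h0 : 0 ≤ T ^ (-(3 / 5) : ℝ) := by positivity
    calc 36 * (μ / T ^ (1 / 3 : ℝ)) ^ 2 * (3 * Real.log T)
        ≤ 36 * T ^ (-(3 / 5) : ℝ) * (3 * (c / 54 * T ^ (1 / 10 : ℝ))) := by gcongr
      _ = 2 * c * (T ^ (-(3 / 5) : ℝ) * T ^ (1 / 10 : ℝ)) := by ring
      _ = 2 * c * T ^ (-(1 / 2) : ℝ) := by rw [h3]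
      _ ≤ 2 * c * Real.sqrt (μ / (ρ * T)) := by gcongr
  have : 0 ≤ c * Real.sqrt (μ / (ρ * T)) := by positivity
  linarith

end Pool.Agent.Helper21.E7
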